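import Mathlib
import Pool.Agent.Lib.MP_e96620_co.CMain

set_option autoImplicit false

namespace Pool.Agent.Results.MP_e96620_co.FewExtra

/-- The tower function: `tower 0 = 1`, `tower 1 = 2`, `tower (i + 1) = 2 ^ tower i`. -/
def tower : ℕ → ℕ
  | 0 => 1
  | i + 1 => 2 ^ tower i

theorem tower_eq (i : ℕ) : tower i = Pool.Agent.Lib.MP_e96620_co.tw i := by
  induction i with
  | zero => rfl
  | succ i ih => rw [Pool.Agent.Lib.MP_e96620_co.tw_succ, tower, ih]

/-- For all `k, n ≥ 1`, all `h` and all `N ≤ tower h` some `±1` colouring of the subsets of an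
`N`-element set has squared normalised discrepancy at most
`16 n (h + 1) log (k + n) (12 n (h + 3) / k) ^ n` on the `k`-subsets of every set with at least
`k + n` elements. -/
theorem result (k n h N : ℕ) (hk : 1 ≤ k) (hn : 1 ≤ n) (hN : N ≤ tower h) :
    ∃ γ : Finset (Fin N) → ℝ, (∀ T, γ T = 1 ∨ γ T = -1) ∧
      ∀ S : Finset (Fin N), k + n ≤ S.card →
        (|∑ T ∈ S.powersetCard k, γ T| / ((S.powersetCard k).card : ℝ)) ^ 2 ≤
          16 * (n : ℝ) * ((h : ℝ) + 1) * Real.log ((k : ℝ) + n) *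
            (12 * (n : ℝ) * ((h : ℝ) + 3) / k) ^ n := by
  rw [tower_eq] at hN
  obtain ⟨γ, hγ⟩ := Pool.Agent.Lib.MP_e96620_co.Few.core_few hn hk hN
  refine ⟨fun T => if γ T then 1 else -1, fun T => ?_, fun S hS => ?_⟩
  · by_cases hT : γ T <;> simp [hT]
  · have hchoose : (0 : ℝ) < (S.card.choose k : ℕ) := by
      exact_mod_cast Nat.choose_pos (by omega)
    have hk1 : (1 : ℝ) ≤ k := by exact_mod_cast hk
    have hn1 : (1 : ℝ) ≤ n := by exact_mod_cast hn
    have hL : 0 ≤ Real.log ((k : ℝ) + n) := Real.log_nonneg (by linarith)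
    rw [← Real.le_sqrt (by positivity) (by positivity), Finset.card_powersetCard,
      div_le_iff₀ hchoose]
    exact Pool.Agent.Lib.MP_e96620_co.Biased.disc_up (Nat.le_add_right k n) _ hγ _ hS S rfl

end Pool.Agent.Results.MP_e96620_co.FewExtra
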