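import Mathlib
import Pool.Agent.Lib.MP_e96620_co.BMain

set_option autoImplicit false

namespace Pool.Agent.Results.MP_e96620_co.TradeOff

/-- The tower function: `tower 0 = 1`, `tower 1 = 2`, `tower (i + 1) = 2 ^ tower i`. -/
def tower : ℕ → ℕ
  | 0 => 1
  | i + 1 => 2 ^ tower i

theorem tower_eq (i : ℕ) : tower i = Pool.Agent.Lib.MP_e96620_co.tw i := by
  induction i with
  | zero => rfl
  | succ i ih => rw [Pool.Agent.Lib.MP_e96620_co.tw_succ, tower, ih]

/-- There is a constant `K` such that for all `1 ≤ n ≤ k`, all `t ≥ 1` and all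
`N ≤ tower ⌊k / (K t)⌋` some `±1` colouring of the subsets of an `N`-element set has normalised
discrepancy at most `k ^ 2 (K t / n) ^ t` on the `k`-subsets of every set with at least `k + n`
elements. -/
theorem result :
    ∃ K : ℕ, 1 ≤ K ∧ ∀ k n t : ℕ, 1 ≤ n → n ≤ k → 1 ≤ t → ∀ N : ℕ, N ≤ tower (k / (K * t)) →
      ∃ γ : Finset (Fin N) → ℝ, (∀ T, γ T = 1 ∨ γ T = -1) ∧
        ∀ S : Finset (Fin N), k + n ≤ S.card →
          |∑ T ∈ S.powersetCard k, γ T| / ((S.powersetCard k).card : ℝ) ≤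
            (k : ℝ) ^ 2 * ((K : ℝ) * t / n) ^ t := by
  obtain ⟨K, hK, hcore⟩ := Pool.Agent.Lib.MP_e96620_co.Biased.core
  refine ⟨K, hK, fun k n t hn hnk ht N hN => ?_⟩
  rw [tower_eq] at hN
  obtain ⟨γ, hγ⟩ := hcore k n t _ N ht hn hnk (Nat.mul_div_le k _) hN
  refine ⟨fun T => if γ T then 1 else -1, fun T => ?_, fun S hS => ?_⟩
  · by_cases hT : γ T <;> simp [hT]
  · have hchoose : (0 : ℝ) < (S.card.choose k : ℕ) := by
      exact_mod_cast Nat.choose_pos (by omega)
    rw [Finset.card_powersetCard, div_le_iff₀ hchoose]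
    exact Pool.Agent.Lib.MP_e96620_co.Biased.disc_up (Nat.le_add_right k n) _ hγ _ hS S rfl

end Pool.Agent.Results.MP_e96620_co.TradeOff
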